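import Mathlib

/-!
# Embeddings of finite groups in large alternating groups
-/

set_option autoImplicit false

namespace Q24.TFC

open Equiv Equiv.Perm

universe u

theorem card_alt_ge {k : ℕ} (hk : 5 ≤ k) : k ≤ Nat.card (alternatingGroup (Fin k)) := by
  have : Nontrivial (Fin k) := Fin.nontrivial_iff_two_le.2 (by omega)
  have h1 := two_mul_nat_card_alternatingGroup (α := Fin k)
  rw [Nat.card_perm, Nat.card_fin] at h1
  obtain ⟨m, rfl⟩ : ∃ m, k = m + 2 := ⟨k - 2, by omega⟩
  have h2 : (m + 2).factorial = (m + 2) * (m + 1).factorial := Nat.factorial_succ _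
  have h3 : 2 ≤ (m + 1).factorial := by
    have := Nat.self_le_factorial (m + 1)
    omega
  rw [h2] at h1
  nlinarith

theorem hom_trivial {k : ℕ} (hk : 5 ≤ k) {P : Type*} [Group P] [Finite P] (hP : Nat.card P < k)
    (f : alternatingGroup (Fin k) →* P) : f = 1 := by
  have hs : IsSimpleGroup (alternatingGroup (Fin k)) :=
    alternatingGroup.isSimpleGroup (by rw [Nat.card_fin]; exact hk)
  rcases hs.eq_bot_or_eq_top_of_normal f.ker inferInstance with h | h
  · exfalso
    have hinj : Function.Injective f := (MonoidHom.ker_eq_bot_iff f).1 h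
    have h1 := Nat.card_le_card_of_injective f hinj
    have h2 := card_alt_ge hk
    omega
  · ext x
    have : x ∈ f.ker := by rw [h]; exact Subgroup.mem_top x
    exact this

theorem perfect {k : ℕ} (hk : 5 ≤ k) : commutator (alternatingGroup (Fin k)) = ⊤ :=
  commutator_alternatingGroup_eq_top (by rw [Nat.card_fin]; exact hk)

/-- every finite group embeds in an alternating group of large degree -/
theorem embed_alt (L : Type u) [Group L] [Finite L] (b : ℕ) :
    ∃ k, b ≤ k ∧ ∃ f : L →* alternatingGroup (Fin k), Function.Injective f := by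
  classical
  have : Fintype L := Fintype.ofFinite L
  let e : ((L ⊕ L) ⊕ Fin b) ≃ Fin (Fintype.card ((L ⊕ L) ⊕ Fin b)) := Fintype.equivFin _
  let g : L → Perm (Fin (Fintype.card ((L ⊕ L) ⊕ Fin b))) := fun x =>
    e.permCongr (Equiv.Perm.sumCongr (Equiv.Perm.sumCongr (MulAction.toPerm x : Perm L)
      (MulAction.toPerm x : Perm L)) (1 : Perm (Fin b)))
  have hg : ∀ x y, g (x * y) = g x * g y := by
    intro x y
    ext i
    obtain ⟨j, rfl⟩ := e.surjective i
    rcases j with (j | j) | j <;> simp [g, mul_assoc]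
  have hs : ∀ x, sign (g x) = 1 := by
    intro x
    simp only [g]
    rw [sign_permCongr, sign_sumCongr, sign_sumCongr, Equiv.Perm.sign_one, mul_one]
    exact Int.units_mul_self _
  refine ⟨Fintype.card ((L ⊕ L) ⊕ Fin b), ?_,
    MonoidHom.codRestrict (MonoidHom.mk' g hg) _ (fun x => mem_alternatingGroup.2 (hs x)), ?_⟩
  · simp
  · intro x y h
    have h1 : g x = g y := congrArg Subtype.val h
    have h2 := congrArg (fun p => p (e (Sum.inl (Sum.inl 1)))) h1
    simpa [g] using h2

end Q24.TFC
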