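import Mathlib
import Pool.Agent.Helper529.HJ.FolB

/-!
# A torsion-free extension in which an abelian normal subgroup dies in all finite quotients
-/

set_option autoImplicit false

namespace Q24.TFC

open HJI.Fol

/-- torsion-free -/
def TF (G : Type*) [Group G] : Prop := ∀ (g : G) (n : ℕ), 0 < n → g ^ n = 1 → g = 1

theorem tf_of_injective {G H : Type*} [Group G] [Group H] (f : H →* G)
    (hf : Function.Injective f) (h : TF G) : TF H := by
  intro g n hn hg
  apply hf
  rw [map_one]
  exact h (f g) n hn (by rw [← map_pow, hg, map_one])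

theorem tf_ext {G H : Type*} [Group G] [Group H] (f : G →* H) (h1 : TF f.ker) (h2 : TF H) :
    TF G := by
  intro g n hn hg
  have h3 : f g = 1 := h2 _ n hn (by rw [← map_pow, hg, map_one])
  have := h1 ⟨g, h3⟩ n hn (Subtype.ext hg)
  exact congrArg Subtype.val this

variable {A G : Type} [CommGroup A] [Group G]

/-- shift of sequences -/
def sh (A : Type) [CommGroup A] (k : ℤ) : (ℤ → A) →* (ℤ → A) where
  toFun f := fun i => f (i - k)
  map_one' := rfl
  map_mul' _ _ := rfl

@[simp] theorem sh_apply (k : ℤ) (f : ℤ → A) (i : ℤ) : sh A k f i = f (i - k) := rfl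

/-- The ambient group: quadruples `(f, x, p, k)`, thought of as `(f, x) · p · s ^ k`. -/
@[ext] structure Amb (ρ : G →* MulAut A) (j : A →* G) where
  /-- sequence -/
  f : ℤ → A
  /-- group element -/
  x : G
  /-- equivariant functional -/
  p : (ℤ → A) →* A
  /-- exponent of the shift -/
  k : ℤ
  hp : ∀ (g : G) (f : ℤ → A), p (fun i => ρ g (f i)) = ρ g (p f)

variable {ρ : G →* MulAut A} {j : A →* G}

instance : One (Amb ρ j) := ⟨⟨1, 1, 1, 0, fun g f => by simp⟩⟩

instance : Mul (Amb ρ j) := ⟨fun a b =>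
  ⟨fun i => a.f i * ρ a.x (b.f (i - a.k)), a.x * j (a.p (sh A a.k b.f)) * b.x,
    a.p * b.p.comp (sh A (-a.k)), a.k + b.k, fun g f => by
      simp only [MonoidHom.mul_apply, MonoidHom.comp_apply, map_mul]
      rw [a.hp, ← b.hp]
      rfl⟩⟩

instance : Inv (Amb ρ j) := ⟨fun a =>
  ⟨fun i => ρ a.x⁻¹ ((a.f (i + a.k))⁻¹), j (ρ a.x⁻¹ (a.p a.f)) * a.x⁻¹,
    (a.p.comp (sh A a.k))⁻¹, -a.k, fun g f => by
      simp only [MonoidHom.inv_apply, MonoidHom.comp_apply, map_inv]
      rw [← a.hp]
      rfl⟩⟩

@[simp] theorem one_f : (1 : Amb ρ j).f = 1 := rfl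
@[simp] theorem one_x : (1 : Amb ρ j).x = 1 := rfl
@[simp] theorem one_p : (1 : Amb ρ j).p = 1 := rfl
@[simp] theorem one_k : (1 : Amb ρ j).k = 0 := rfl
theorem mul_f (a b : Amb ρ j) : (a * b).f = fun i => a.f i * ρ a.x (b.f (i - a.k)) := rfl
theorem mul_x (a b : Amb ρ j) : (a * b).x = a.x * j (a.p (sh A a.k b.f)) * b.x := rfl
theorem mul_p (a b : Amb ρ j) : (a * b).p = a.p * b.p.comp (sh A (-a.k)) := rfl
theorem mul_k (a b : Amb ρ j) : (a * b).k = a.k + b.k := rfl
theorem inv_f (a : Amb ρ j) : (a⁻¹).f = fun i => ρ a.x⁻¹ ((a.f (i + a.k))⁻¹) := rfl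
theorem inv_x (a : Amb ρ j) : (a⁻¹).x = j (ρ a.x⁻¹ (a.p a.f)) * a.x⁻¹ := rfl
theorem inv_p (a : Amb ρ j) : (a⁻¹).p = (a.p.comp (sh A a.k))⁻¹ := rfl
theorem inv_k (a : Amb ρ j) : (a⁻¹).k = -a.k := rfl

/-- the compatibility conditions (crossed module) -/
structure Comp (ρ : G →* MulAut A) (j : A →* G) : Prop where
  h1 : ∀ g a, j (ρ g a) = g * j a * g⁻¹
  h2 : ∀ a b, ρ (j a) b = b

/-- group structure -/
@[reducible] def ambGroup (hc : Comp ρ j) : Group (Amb ρ j) :=
  Group.ofLeftAxioms
    (by
      intro a b c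
      have hρj : ∀ (a : A) (b : A), ρ (j a) b = b := hc.h2
      apply Amb.ext
      · rw [mul_f, mul_f, mul_f, mul_f, mul_x, mul_k]
        funext i
        simp only [map_mul, MulAut.mul_apply]
        rw [hρj, mul_assoc]
        congr 4
        ring_nf
      · rw [mul_x, mul_x, mul_x, mul_x, mul_f, mul_p, mul_k]
        have e1 : sh A a.k (fun i => b.f i * ρ b.x (c.f (i - b.k))) =
            sh A a.k b.f * (fun i => ρ b.x (sh A (a.k + b.k) c.f i)) := by
          funext i
          simp only [sh_apply, Pi.mul_apply]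
          congr 3
          ring
        rw [e1, map_mul, a.hp, map_mul, hc.h1, MonoidHom.mul_apply, MonoidHom.comp_apply,
          map_mul]
        have e2 : sh A (-a.k) (sh A (a.k + b.k) c.f) = sh A b.k c.f := by
          funext i
          simp only [sh_apply]
          congr 1
          ring
        rw [e2]
        group
      · rw [mul_p, mul_p, mul_p, mul_p, mul_k]
        ext f
        simp only [MonoidHom.mul_apply, MonoidHom.comp_apply]
        rw [mul_assoc]
        congr 3
        funext i
        simp only [sh_apply]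
        congr 1
        ring
      · rw [mul_k, mul_k, mul_k, mul_k, add_assoc])
    (by
      intro a
      apply Amb.ext
      · rw [mul_f]
        funext i
        simp
      · rw [mul_x]
        simp
      · rw [mul_p]
        ext f
        simp only [one_p, one_mul, one_k, neg_zero, MonoidHom.comp_apply]
        congr 1
        funext i
        simp
      · rw [mul_k]; simp)
    (by
      intro a
      have hρj : ∀ (a : A) (b : A), ρ (j a) b = b := hc.h2
      apply Amb.ext
      · rw [mul_f, inv_f, inv_x, inv_k]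
        funext i
        simp only [map_mul, MulAut.mul_apply]
        rw [hρj, sub_neg_eq_add, ← map_mul, inv_mul_cancel, map_one]
        rfl
      · rw [mul_x, inv_x, inv_p, inv_k]
        simp only [MonoidHom.inv_apply, MonoidHom.comp_apply]
        have e1 : sh A a.k (sh A (-a.k) a.f) = a.f := by
          funext i
          simp
        rw [e1, hc.h1, map_inv]
        simp only [inv_inv, one_x]
        group
      · rw [mul_p, inv_p, inv_k, neg_neg]
        simp
      · rw [mul_k, inv_k]; simp)

end Q24.TFC
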