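import Pool.Agent.Q24.TFC.Amb

/-!
# The ambient group is torsion-free and amenable; killing the abelian subgroup
-/

set_option autoImplicit false

namespace Q24.TFC

open HJI.Fol

variable {A G : Type} [CommGroup A] [Group G] {ρ : G →* MulAut A} {j : A →* G}

/-- The ambient group as a group. -/
def AmbG (_hc : Comp ρ j) : Type := Amb ρ j

instance (hc : Comp ρ j) : Group (AmbG hc) := ambGroup hc

variable (hc : Comp ρ j)

/-- torsion-free and amenable -/
def Good (G : Type) [Group G] : Prop := TF G ∧ Fol G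

theorem good_ext {G H : Type} [Group G] [Group H] (f : G →* H) (h1 : Good f.ker) (h2 : Good H) :
    Good G := ⟨tf_ext f h1.1 h2.1, fol_ext f h1.2 h2.2⟩

theorem good_of_injective {G H : Type} [Group G] [Group H] (f : H →* G)
    (hf : Function.Injective f) (h : Good G) : Good H :=
  ⟨tf_of_injective f hf h.1, fol_of_injective f hf h.2⟩

theorem good_int : Good (Multiplicative ℤ) := by
  refine ⟨?_, fol_comm (fun a b => mul_comm a b)⟩
  intro g n hn hg
  have h1 : n • (Multiplicative.toAdd g) = 0 := by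
    rw [← toAdd_pow, hg]; rfl
  have h2 : Multiplicative.toAdd g = 0 := by
    rw [nsmul_eq_mul, mul_eq_zero] at h1
    rcases h1 with h1 | h1
    · have : n = 0 := by exact_mod_cast h1
      omega
    · exact h1
  exact h2

/-- exponent of the shift -/
def kHom : AmbG hc →* Multiplicative ℤ where
  toFun a := Multiplicative.ofAdd (Amb.k a)
  map_one' := rfl
  map_mul' _ _ := rfl

theorem k_of_ker (a : (kHom hc).ker) : Amb.k a.1 = 0 := a.2

theorem sh_zero_comp (p : (ℤ → A) →* A) : p.comp (sh A 0) = p := by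
  ext f
  simp only [MonoidHom.comp_apply]
  congr 1
  funext i
  simp

/-- the functional -/
def pHom : (kHom hc).ker →* ((ℤ → A) →* A) where
  toFun a := Amb.p a.1
  map_one' := rfl
  map_mul' a b := by
    show (Amb.p (a.1 : Amb ρ j)) * (Amb.p (b.1 : Amb ρ j)).comp (sh A (-(Amb.k a.1))) = _
    rw [k_of_ker, neg_zero, sh_zero_comp]

/-- the element of `G` -/
def xHom : (pHom hc).ker →* G where
  toFun a := Amb.x a.1.1
  map_one' := rfl
  map_mul' a b := by
    show (Amb.x a.1.1) * j ((Amb.p a.1.1) (sh A (Amb.k a.1.1) (Amb.f b.1.1))) * Amb.x b.1.1 = _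
    have h1 : Amb.p a.1.1 = 1 := a.2
    rw [h1]
    simp

/-- the sequence -/
def fHom : (xHom hc).ker →* (ℤ → A) where
  toFun a := Amb.f a.1.1.1
  map_one' := rfl
  map_mul' a b := by
    show (fun i => (Amb.f a.1.1.1) i * ρ (Amb.x a.1.1.1) ((Amb.f b.1.1.1) (i - Amb.k a.1.1.1))) = _
    have h1 : Amb.x a.1.1.1 = 1 := a.2
    have h2 : Amb.k a.1.1.1 = 0 := k_of_ker hc a.1.1
    rw [h1, h2]
    funext i
    simp

theorem fHom_injective : Function.Injective (fHom hc) := by
  intro a b h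
  have h1 : Amb.x a.1.1.1 = Amb.x b.1.1.1 := by
    have e1 : Amb.x a.1.1.1 = 1 := a.2
    have e2 : Amb.x b.1.1.1 = 1 := b.2
    rw [e1, e2]
  have h2 : Amb.p a.1.1.1 = Amb.p b.1.1.1 := by
    have e1 : Amb.p a.1.1.1 = 1 := a.1.2
    have e2 : Amb.p b.1.1.1 = 1 := b.1.2
    rw [e1, e2]
  have h3 : Amb.k a.1.1.1 = Amb.k b.1.1.1 := by
    rw [k_of_ker, k_of_ker]
  exact Subtype.ext (Subtype.ext (Subtype.ext (Amb.ext h h1 h2 h3)))

theorem good_amb (hA : TF A) (hG : Good G) : Good (AmbG hc) := by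
  refine good_ext (kHom hc) (good_ext (pHom hc) (good_ext (xHom hc) ?_ hG) ?_) good_int
  · refine good_of_injective (fHom hc) (fHom_injective hc) ⟨?_, fol_comm (fun a b => mul_comm a b)⟩
    intro g n hn hg
    funext i
    exact hA (g i) n hn (congrFun hg i)
  · refine ⟨?_, fol_comm (fun a b => mul_comm a b)⟩
    intro g n hn hg
    ext f
    exact hA (g f) n hn (by
      have := DFunLike.congr_fun hg f
      simpa using this)

/-- the embedding of `G` -/
def i0 : G →* AmbG hc where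
  toFun x := ⟨1, x, 1, 0, fun g f => by simp⟩
  map_one' := rfl
  map_mul' x y := by
    symm
    refine Amb.ext ?_ ?_ ?_ ?_
    · show (fun i => (1 : ℤ → A) i * ρ x ((1 : ℤ → A) (i - 0))) = 1
      funext i
      simp
    · show x * j (1 : A) * y = x * y
      simp
    · show (1 : (ℤ → A) →* A) * (1 : (ℤ → A) →* A).comp _ = 1
      ext f
      simp
    · show (0 : ℤ) + 0 = 0
      simp

/-- the element of a sequence -/
def F (f : ℤ → A) : AmbG hc := (⟨f, 1, 1, 0, fun g f => by simp⟩ : Amb ρ j)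

/-- the evaluation at zero -/
def uu : AmbG hc := (⟨1, 1, Pi.evalMonoidHom (fun _ : ℤ => A) 0, 0, fun g f => rfl⟩ : Amb ρ j)

/-- the shift -/
def ss : AmbG hc := (⟨1, 1, 1, 1, fun g f => by simp⟩ : Amb ρ j)

theorem comm_rel (f : ℤ → A) : uu hc * F hc f = i0 hc (j (f 0)) * (F hc f * uu hc) := by
  have hρj : ∀ (a : A) (b : A), ρ (j a) b = b := hc.h2
  refine Amb.ext ?_ ?_ ?_ ?_
  · show (fun i => (1 : ℤ → A) i * ρ 1 (f (i - 0))) =
      (fun i => (1 : ℤ → A) i * ρ (j (f 0)) ((fun i => f i * ρ 1 ((1 : ℤ → A) (i - 0))) (i - 0)))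
    funext i
    simp [hρj]
  · show 1 * j (sh A 0 f 0) * 1 = j (f 0) * j (1 : A) * (1 * j (1 : A) * 1)
    simp
  · show (Pi.evalMonoidHom (fun _ : ℤ => A) 0) * (1 : (ℤ → A) →* A).comp _ =
      1 * (1 * (Pi.evalMonoidHom (fun _ : ℤ => A) 0).comp (sh A (-0))).comp (sh A (-0))
    ext g
    simp
  · show (0 : ℤ) + 0 = 0 + (0 + 0)
    simp

theorem shift_rel (f : ℤ → A) : ss hc * F hc f = F hc (sh A 1 f) * ss hc := by
  refine Amb.ext ?_ ?_ ?_ ?_
  · show (fun i => (1 : ℤ → A) i * ρ 1 (f (i - 1))) =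
      (fun i => (sh A 1 f) i * ρ 1 ((1 : ℤ → A) (i - 0)))
    funext i
    simp
  · show 1 * j (1 : A) * 1 = 1 * j (1 : A) * 1
    simp
  · show (1 : (ℤ → A) →* A) * (1 : (ℤ → A) →* A).comp _ = 1 * (1 : (ℤ → A) →* A).comp _
    ext g
    simp
  · show (1 : ℤ) + 0 = 0 + 1
    simp

theorem shift_pow (f : ℤ → A) (m : ℕ) : ss hc ^ m * F hc f = F hc (sh A m f) * ss hc ^ m := by
  induction m with
  | zero =>
    simp only [pow_zero, one_mul, mul_one, Nat.cast_zero]
    congr 1
    funext i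
    simp
  | succ m ih =>
    rw [pow_succ', mul_assoc, ih, ← mul_assoc, shift_rel, mul_assoc]
    congr 2
    funext i
    simp only [sh_apply]
    congr 1
    push_cast
    ring

/-- the sequences with value `f n` at `0` and `1` at `0` have the same image in a finite group -/
theorem killed {P : Type*} [Group P] [Finite P] {S : Subgroup (AmbG hc)} (φ : S →* P)
    (lam : ℕ → A) (f : ℤ → A) (hf : ∀ n : ℕ, f n = lam n) (hneg : ∀ k : ℤ, k < 0 → f k = 1)
    (hs : ss hc ∈ S) (hu : uu hc ∈ S) (hF : ∀ k : ℤ, F hc (sh A k f) ∈ S)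
    (hi : ∀ x, i0 hc x ∈ S) (n : ℕ) : φ ⟨i0 hc (j (lam n)), hi _⟩ = 1 := by
  let U : S := ⟨uu hc, hu⟩
  let T : S := ⟨ss hc, hs⟩
  let FF : ℤ → S := fun k => ⟨F hc (sh A k f), hF k⟩
  let I : G → S := fun x => ⟨i0 hc x, hi x⟩
  have hI1 : I (j 1) = 1 := by
    apply Subtype.ext
    show i0 hc (j 1) = 1
    rw [map_one, map_one]
  have h1 : ∀ k : ℤ, U * FF k = I (j (f (-k))) * (FF k * U) := by
    intro k
    apply Subtype.ext
    have := comm_rel hc (sh A k f)
    simp only [sh_apply, zero_sub] at this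
    exact this
  have h2 : ∀ (m : ℕ) (k : ℤ), T ^ m * FF k = FF (m + k) * T ^ m := by
    intro m k
    apply Subtype.ext
    have := shift_pow hc (sh A k f) m
    have e : sh A m (sh A k f) = sh A (m + k) f := by
      funext i
      simp only [sh_apply]
      congr 1
      ring
    rw [e] at this
    exact this
  have h3 : ∀ k : ℤ, φ (FF ((Nat.card P : ℕ) + k)) = φ (FF k) := by
    intro k
    have := congrArg φ (h2 (Nat.card P) k)
    rw [map_mul, map_mul, map_pow, pow_card_eq_one', one_mul, mul_one] at this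
    exact this.symm
  have h4 : ∀ (r : ℕ) (k : ℤ), φ (FF (r * (Nat.card P : ℕ) + k)) = φ (FF k) := by
    intro r
    induction r with
    | zero => intro k; simp
    | succ r ih =>
      intro k
      have e : ((r + 1 : ℕ) : ℤ) * (Nat.card P : ℕ) + k =
          (Nat.card P : ℕ) + (r * (Nat.card P : ℕ) + k) := by push_cast; ring
      rw [e, h3, ih]
  have hpos : 0 < Nat.card P := Nat.card_pos
  have h5 := congrArg φ (h1 (-(n : ℤ)))
  have h6 := congrArg φ (h1 (((n + 1 : ℕ) : ℤ) * (Nat.card P : ℕ) + -(n : ℤ)))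
  rw [neg_neg, hf] at h5
  rw [hneg (-(((n + 1 : ℕ) : ℤ) * (Nat.card P : ℕ) + -(n : ℤ))) (by push_cast; nlinarith),
    hI1, one_mul] at h6
  simp only [map_mul] at h5 h6
  rw [h4] at h6
  rw [h6] at h5
  have h7 : φ (I (j (lam n))) = 1 := by
    have := h5
    rwa [eq_comm, mul_eq_right] at this
  exact h7

end Q24.TFC
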