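import Mathlib
import Pool.Agent.Helper529.HJ.FolB

/-!
# A finitely generated amenable group containing a direct sum of given finite perfect groups
-/

set_option autoImplicit false

namespace Q24.Block

open HJI.Fol

/-! ## Sums of two powers of two -/

theorem pow2_sum_aux {a b c d : ℕ} (hab : a ≤ b) (hcd : c ≤ d)
    (h : 2 ^ a + 2 ^ b = 2 ^ c + 2 ^ d) : a = c ∧ b = d := by
  have pa : 0 < 2 ^ a := Nat.two_pow_pos a
  have pc : 0 < 2 ^ c := Nat.two_pow_pos c
  have hab' : 2 ^ a ≤ 2 ^ b := Nat.pow_le_pow_right (by norm_num) hab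
  have hcd' : 2 ^ c ≤ 2 ^ d := Nat.pow_le_pow_right (by norm_num) hcd
  have key : ∀ {x y : ℕ}, 2 ^ x < 2 ^ y + 2 ^ y → x ≤ y := by
    intro x y hxy
    have : 2 ^ x < 2 ^ (y + 1) := by rw [pow_succ]; omega
    have := (Nat.pow_lt_pow_iff_right (by norm_num : 1 < 2)).1 this
    omega
  have hinj : ∀ {x y : ℕ}, 2 ^ x = 2 ^ y → x = y := fun h => Nat.pow_right_injective (le_refl 2) h
  have hbd : b ≤ d := key (by omega)
  have hdb : d ≤ b := key (by omega)
  have hbd' : b = d := le_antisymm hbd hdb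
  subst hbd'
  exact ⟨hinj (by omega), rfl⟩

theorem pow2_sum {a b c d : ℕ} (h : 2 ^ a + 2 ^ b = 2 ^ c + 2 ^ d) :
    (a = c ∧ b = d) ∨ (a = d ∧ b = c) := by
  rcases le_total a b with h1 | h1 <;> rcases le_total c d with h2 | h2
  · exact Or.inl (pow2_sum_aux h1 h2 h)
  · have := pow2_sum_aux h1 h2 (by omega)
    exact Or.inr this
  · have := pow2_sum_aux h1 h2 (by omega)
    exact Or.inr ⟨this.2, this.1⟩
  · have := pow2_sum_aux h1 h2 (by omega)
    exact Or.inl ⟨this.2, this.1⟩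

theorem sidon {c α β α0 β0 : ℕ} (hα : α < c) (hβ : β < c) (hα0 : α0 < c) (hβ0 : β0 < c)
    (hne : α0 ≠ β0)
    (h : ((2 ^ c : ℕ) : ℤ) ∣ (((2 ^ α : ℕ) : ℤ) - ((2 ^ β : ℕ) : ℤ)) -
      (((2 ^ α0 : ℕ) : ℤ) - ((2 ^ β0 : ℕ) : ℤ))) : α = α0 ∧ β = β0 := by
  have hb : ∀ x, x < c → 2 ^ x + 2 ^ x ≤ 2 ^ c ∧ 0 < 2 ^ x := by
    intro x hx
    refine ⟨?_, Nat.two_pow_pos x⟩
    have : 2 ^ (x + 1) ≤ 2 ^ c := Nat.pow_le_pow_right (by norm_num) (by omega)
    rw [pow_succ] at this
    omega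
  have b1 := hb α hα
  have b2 := hb β hβ
  have b3 := hb α0 hα0
  have b4 := hb β0 hβ0
  obtain ⟨q, hq⟩ := h
  have hq0 : q = 0 := by
    by_contra hq0
    rcases lt_or_gt_of_ne hq0 with h1 | h1
    · have : ((2 ^ c : ℕ) : ℤ) * q ≤ -((2 ^ c : ℕ) : ℤ) := by nlinarith
      omega
    · have : ((2 ^ c : ℕ) : ℤ) ≤ ((2 ^ c : ℕ) : ℤ) * q := by nlinarith
      omega
  subst hq0
  have h2 : 2 ^ α + 2 ^ β0 = 2 ^ α0 + 2 ^ β := by
    rw [mul_zero] at hq
    omega
  rcases pow2_sum h2 with ⟨h3, h4⟩ | ⟨_, h4⟩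
  · exact ⟨h3, h4.symm⟩
  · exact absurd h4.symm hne

variable (Q : ℕ → Type) [∀ n, Group (Q n)] [∀ n, Fintype (Q n)]

/-- the exponents where the blocks begin -/
noncomputable def cc : ℕ → ℕ
  | 0 => 0
  | n + 1 => cc n + Fintype.card (Q n)

/-- the modulus of a block -/
noncomputable def mm (n : ℕ) : ℕ := 2 ^ (cc Q (n + 1))

instance (n : ℕ) : NeZero (mm Q n) := ⟨(Nat.two_pow_pos _).ne'⟩

theorem cc_lt (n : ℕ) : cc Q n < cc Q (n + 1) := by
  have : 0 < Fintype.card (Q n) := Fintype.card_pos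
  simp only [cc]
  omega

theorem cc_mono {m n : ℕ} (h : m ≤ n) : cc Q m ≤ cc Q n := by
  induction n with
  | zero =>
    have : m = 0 := by omega
    subst this; exact le_rfl
  | succ n ih =>
    rcases Nat.lt_or_ge m (n + 1) with h1 | h1
    · exact (ih (by omega)).trans (cc_lt Q n).le
    · have : m = n + 1 := by omega
      subst this; exact le_rfl

theorem le_cc (n : ℕ) : n ≤ cc Q n := by
  induction n with
  | zero => exact Nat.zero_le _
  | succ n ih => have := cc_lt Q n; omega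

/-- the exponent of the position of an element -/
noncomputable def ex (n : ℕ) (x : Q n) : ℕ := cc Q n + (Fintype.equivFin (Q n) x : ℕ)

theorem ex_ge (n : ℕ) (x : Q n) : cc Q n ≤ ex Q n x := Nat.le_add_right _ _

theorem ex_lt (n : ℕ) (x : Q n) : ex Q n x < cc Q (n + 1) := by
  have := (Fintype.equivFin (Q n) x).2
  simp only [ex, cc]
  omega

theorem ex_inj (n : ℕ) {x y : Q n} (h : ex Q n x = ex Q n y) : x = y := by
  apply (Fintype.equivFin (Q n)).injective
  apply Fin.ext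
  simp only [ex] at h
  omega

/-- the position of an element -/
noncomputable def ps (n : ℕ) (x : Q n) : ZMod (mm Q n) := ((2 ^ ex Q n x : ℕ) : ZMod (mm Q n))

theorem ps_inj (n : ℕ) {x y : Q n} (h : ps Q n x = ps Q n y) : x = y := by
  unfold ps at h
  rw [ZMod.natCast_eq_natCast_iff'] at h
  have h1 : ∀ z : Q n, 2 ^ ex Q n z < mm Q n := fun z =>
    Nat.pow_lt_pow_right (by norm_num) (ex_lt Q n z)
  rw [Nat.mod_eq_of_lt (h1 x), Nat.mod_eq_of_lt (h1 y)] at h
  exact ex_inj Q n (Nat.pow_right_injective (le_refl 2) h)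

open Classical in
/-- the first generator -/
noncomputable def aa : ∀ n, ZMod (mm Q n) → Q n := fun n i =>
  if h : ∃ x, ps Q n x = i then h.choose else 1

theorem aa_ps (n : ℕ) (x : Q n) : aa Q n (ps Q n x) = x := by
  have h : ∃ y, ps Q n y = ps Q n x := ⟨x, rfl⟩
  have h1 : aa Q n (ps Q n x) = h.choose := by
    unfold aa
    rw [dif_pos h]
  rw [h1]
  exact ps_inj Q n h.choose_spec

theorem aa_ne (n : ℕ) {i : ZMod (mm Q n)} (h : aa Q n i ≠ 1) : ps Q n (aa Q n i) = i := by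
  by_cases h1 : ∃ x, ps Q n x = i
  · obtain ⟨x, rfl⟩ := h1
    rw [aa_ps]
  · exfalso
    apply h
    unfold aa
    rw [dif_neg h1]

/-- the big product -/
abbrev FF : Type := ∀ n, ZMod (mm Q n) → Q n

/-- shifts -/
noncomputable def shF (k : ℤ) : FF Q →* FF Q where
  toFun g := fun n i => g n (i - (k : ZMod (mm Q n)))
  map_one' := rfl
  map_mul' _ _ := rfl

theorem shF_apply (k : ℤ) (g : FF Q) (n : ℕ) (i : ZMod (mm Q n)) :
    shF Q k g n i = g n (i - (k : ZMod (mm Q n))) := rfl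

theorem shF_comp (k l : ℤ) (g : FF Q) : shF Q k (shF Q l g) = shF Q (k + l) g := by
  funext n i
  simp only [shF_apply]
  congr 1
  push_cast
  ring

theorem shF_zero (g : FF Q) : shF Q 0 g = g := by
  funext n i
  simp [shF_apply]

/-- the action of the integers by shifts -/
noncomputable def φ : Multiplicative ℤ →* MulAut (FF Q) where
  toFun k :=
    { toFun := shF Q (Multiplicative.toAdd k)
      invFun := shF Q (-(Multiplicative.toAdd k))
      left_inv := fun g => by rw [shF_comp, neg_add_cancel, shF_zero]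
      right_inv := fun g => by rw [shF_comp, add_neg_cancel, shF_zero]
      map_mul' := map_mul _ }
  map_one' := by
    ext1 g
    exact shF_zero Q g
  map_mul' k l := by
    ext1 g
    exact (shF_comp Q _ _ g).symm

theorem φ_apply (k : Multiplicative ℤ) (g : FF Q) : φ Q k g = shF Q (Multiplicative.toAdd k) g :=
  rfl

/-- the ambient group -/
abbrev Big : Type := SemidirectProduct (FF Q) (Multiplicative ℤ) (φ Q)

/-- the shift element -/
noncomputable def tt : Big Q := SemidirectProduct.inr (Multiplicative.ofAdd 1)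

/-- the block group -/
noncomputable def Gm : Subgroup (Big Q) :=
  Subgroup.closure {SemidirectProduct.inl (aa Q), tt Q}

theorem tt_mem : tt Q ∈ Gm Q := Subgroup.subset_closure (by simp)

theorem tt_zpow (k : ℤ) : (SemidirectProduct.inr (Multiplicative.ofAdd k) : Big Q) ∈ Gm Q := by
  have : (SemidirectProduct.inr (Multiplicative.ofAdd k) : Big Q) = tt Q ^ k := by
    unfold tt
    rw [← map_zpow, ← ofAdd_zsmul]
    congr 2
    simp
  rw [this]
  exact Subgroup.zpow_mem _ (tt_mem Q) k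

theorem sh_mem {g : FF Q} (h : (SemidirectProduct.inl g : Big Q) ∈ Gm Q) (k : ℤ) :
    (SemidirectProduct.inl (shF Q k g) : Big Q) ∈ Gm Q := by
  have h1 := SemidirectProduct.inl_aut (φ := φ Q) (Multiplicative.ofAdd k) g
  rw [φ_apply, toAdd_ofAdd] at h1
  rw [h1]
  refine Subgroup.mul_mem _ (Subgroup.mul_mem _ (tt_zpow Q k) h) ?_
  have := tt_zpow Q (-k)
  rwa [ofAdd_neg] at this

theorem aa_mem : (SemidirectProduct.inl (aa Q) : Big Q) ∈ Gm Q :=
  Subgroup.subset_closure (by simp)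

/-- the commutator of two shifts, in one block -/
theorem comm_block {k l : ℤ} {n : ℕ} {i : ZMod (mm Q n)}
    (h : shF Q k (aa Q) n i * shF Q l (aa Q) n i ≠ shF Q l (aa Q) n i * shF Q k (aa Q) n i) :
    ∃ x y : Q n, x ≠ y ∧ i - (k : ZMod (mm Q n)) = ps Q n x ∧ i - (l : ZMod (mm Q n)) = ps Q n y := by
  simp only [shF_apply] at h
  have h1 : aa Q n (i - (k : ZMod (mm Q n))) ≠ 1 := by
    intro e; rw [e] at h; simp at h
  have h2 : aa Q n (i - (l : ZMod (mm Q n))) ≠ 1 := by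
    intro e; rw [e] at h; simp at h
  refine ⟨_, _, ?_, (aa_ne Q n h1).symm, (aa_ne Q n h2).symm⟩
  intro e
  rw [e] at h
  exact h rfl

/-- divisibility in one block -/
theorem block_dvd {k l : ℤ} {n : ℕ} {i : ZMod (mm Q n)} {x y : Q n}
    (h1 : i - (k : ZMod (mm Q n)) = ps Q n x) (h2 : i - (l : ZMod (mm Q n)) = ps Q n y) :
    ((2 ^ cc Q (n + 1) : ℕ) : ℤ) ∣
      (((2 ^ ex Q n x : ℕ) : ℤ) - ((2 ^ ex Q n y : ℕ) : ℤ)) - (l - k) := by
  rw [← ZMod.intCast_zmod_eq_zero_iff_dvd]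
  have e : ((2 ^ cc Q (n + 1) : ℕ)) = mm Q n := rfl
  rw [e]
  have h3 : ps Q n x - ps Q n y = (l : ZMod (mm Q n)) - (k : ZMod (mm Q n)) := by
    rw [← h1, ← h2]; ring
  unfold ps at h3
  push_cast at h3 ⊢
  rw [h3, sub_self]

theorem isolate (n : ℕ) {x y : Q n} (hxy : x ≠ y) :
    aa Q * shF Q (((2 ^ ex Q n x : ℕ) : ℤ) - ((2 ^ ex Q n y : ℕ) : ℤ)) (aa Q) * (aa Q)⁻¹ *
      (shF Q (((2 ^ ex Q n x : ℕ) : ℤ) - ((2 ^ ex Q n y : ℕ) : ℤ)) (aa Q))⁻¹ =
      Pi.mulSingle n (Pi.mulSingle (ps Q n x) (x * y * x⁻¹ * y⁻¹)) := by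
  set k : ℤ := ((2 ^ ex Q n x : ℕ) : ℤ) - ((2 ^ ex Q n y : ℕ) : ℤ) with hk
  have hexne : ex Q n x ≠ ex Q n y := fun h => hxy (ex_inj Q n h)
  have hk0 : k ≠ 0 := by
    intro h
    apply hexne
    have : 2 ^ ex Q n x = 2 ^ ex Q n y := by omega
    exact Nat.pow_right_injective (le_refl 2) this
  -- triviality outside the position
  have key : ∀ (n' : ℕ) (i : ZMod (mm Q n')),
      aa Q n' i * shF Q k (aa Q) n' i ≠ shF Q k (aa Q) n' i * aa Q n' i →
      ∃ h : n = n', i = h ▸ ps Q n x := by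
    intro n' i h
    have h' : shF Q 0 (aa Q) n' i * shF Q k (aa Q) n' i ≠
        shF Q k (aa Q) n' i * shF Q 0 (aa Q) n' i := by
      rwa [shF_zero]
    obtain ⟨x', y', hne, h1, h2⟩ := comm_block Q h'
    have hd := block_dvd Q h1 h2
    rw [sub_zero] at hd
    rcases lt_trichotomy n' n with hlt | heq | hgt
    · exfalso
      have h3 : ((2 ^ cc Q (n' + 1) : ℕ) : ℤ) ∣ k := by
        rw [hk]
        have : cc Q (n' + 1) ≤ cc Q n := cc_mono Q hlt
        apply dvd_sub
        · exact_mod_cast Nat.pow_dvd_pow 2 (this.trans (ex_ge Q n x))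
        · exact_mod_cast Nat.pow_dvd_pow 2 (this.trans (ex_ge Q n y))
      have h4 := dvd_add hd h3
      rw [sub_add_cancel] at h4
      have h5 : (ps Q n' x') = ps Q n' y' := by
        rw [← sub_eq_zero]
        unfold ps
        have := (ZMod.intCast_zmod_eq_zero_iff_dvd _ (2 ^ cc Q (n' + 1))).2 h4
        push_cast at this ⊢
        exact this
      exact hne (ps_inj Q n' h5)
    · subst heq
      refine ⟨rfl, ?_⟩
      have h3 := sidon (ex_lt Q n' x') (ex_lt Q n' y') (ex_lt Q n' x) (ex_lt Q n' y) hexne hd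
      have h4 : x' = x := ex_inj Q n' h3.1
      rw [h4] at h1
      simpa using h1
    · exfalso
      have h3 : ((2 ^ cc Q n' : ℕ) : ℤ) ∣ k := by
        have h4 : ((2 ^ cc Q n' : ℕ) : ℤ) ∣ (((2 ^ ex Q n' x' : ℕ) : ℤ) -
            ((2 ^ ex Q n' y' : ℕ) : ℤ)) := by
          apply dvd_sub
          · exact_mod_cast Nat.pow_dvd_pow 2 (ex_ge Q n' x')
          · exact_mod_cast Nat.pow_dvd_pow 2 (ex_ge Q n' y')
        have h5 : ((2 ^ cc Q n' : ℕ) : ℤ) ∣ ((2 ^ cc Q (n' + 1) : ℕ) : ℤ) := by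
          exact_mod_cast Nat.pow_dvd_pow 2 (cc_lt Q n').le
        have h6 := dvd_sub h4 (h5.trans hd)
        rwa [sub_sub_cancel] at h6
      have h7 : cc Q (n + 1) ≤ cc Q n' := cc_mono Q hgt
      have h8 : 2 ^ ex Q n x < 2 ^ cc Q (n + 1) :=
        Nat.pow_lt_pow_right (by norm_num) (ex_lt Q n x)
      have h9 : 2 ^ ex Q n y < 2 ^ cc Q (n + 1) :=
        Nat.pow_lt_pow_right (by norm_num) (ex_lt Q n y)
      have h10 : 2 ^ cc Q (n + 1) ≤ 2 ^ cc Q n' := Nat.pow_le_pow_right (by norm_num) h7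
      have h11 : 0 < 2 ^ ex Q n x := Nat.two_pow_pos _
      have h12 : 0 < 2 ^ ex Q n y := Nat.two_pow_pos _
      obtain ⟨q, hq⟩ := h3
      rcases lt_trichotomy q 0 with hq1 | hq1 | hq1
      · have : ((2 ^ cc Q n' : ℕ) : ℤ) * q ≤ -((2 ^ cc Q n' : ℕ) : ℤ) := by nlinarith
        omega
      · subst hq1
        rw [mul_zero] at hq
        exact hk0 hq
      · have : ((2 ^ cc Q n' : ℕ) : ℤ) ≤ ((2 ^ cc Q n' : ℕ) : ℤ) * q := by nlinarith
        omega
  funext n' i
  simp only [Pi.mul_apply, Pi.inv_apply]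
  by_cases hn : n' = n
  · subst hn
    rw [Pi.mulSingle_eq_same]
    by_cases hi : i = ps Q n' x
    · subst hi
      rw [Pi.mulSingle_eq_same, aa_ps]
      have h1 : shF Q k (aa Q) n' (ps Q n' x) = y := by
        rw [shF_apply]
        have : ps Q n' x - (k : ZMod (mm Q n')) = ps Q n' y := by
          rw [hk]
          unfold ps
          push_cast
          ring
        rw [this, aa_ps]
      rw [h1]
    · rw [Pi.mulSingle_eq_of_ne hi]
      by_contra hcon
      obtain ⟨h, h2⟩ := key n' i (by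
        intro e
        apply hcon
        rw [e]
        group)
      exact hi h2
  · rw [Pi.mulSingle_eq_of_ne hn]
    by_contra hcon
    obtain ⟨h, _⟩ := key n' i (by
      intro e
      apply hcon
      rw [e]
      simp)
    exact hn h.symm

/-- the embedding of a block -/
noncomputable def dl (n : ℕ) : Q n →* Big Q :=
  (SemidirectProduct.inl : FF Q →* Big Q).comp
    ((MonoidHom.mulSingle (fun n => ZMod (mm Q n) → Q n) n).comp
      (MonoidHom.mulSingle (fun _ : ZMod (mm Q n) => Q n) 0))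

theorem dl_apply (n : ℕ) (x : Q n) : dl Q n x =
    SemidirectProduct.inl (Pi.mulSingle n (Pi.mulSingle 0 x)) := rfl

theorem shF_single (n : ℕ) (p : ZMod (mm Q n)) (x : Q n) (k : ℤ) :
    shF Q k (Pi.mulSingle n (Pi.mulSingle p x)) =
      Pi.mulSingle n (Pi.mulSingle (p + (k : ZMod (mm Q n))) x) := by
  funext n' i
  rw [shF_apply]
  by_cases hn : n' = n
  · subst hn
    rw [Pi.mulSingle_eq_same, Pi.mulSingle_eq_same]
    by_cases hi : i = p + (k : ZMod (mm Q n'))
    · subst hi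
      rw [Pi.mulSingle_eq_same, add_sub_cancel_right, Pi.mulSingle_eq_same]
    · rw [Pi.mulSingle_eq_of_ne hi, Pi.mulSingle_eq_of_ne]
      intro h
      apply hi
      rw [← h]
      ring
  · rw [Pi.mulSingle_eq_of_ne hn, Pi.mulSingle_eq_of_ne hn]
    rfl

theorem dl_mem (hperf : ∀ n, commutator (Q n) = ⊤) (n : ℕ) (x : Q n) : dl Q n x ∈ Gm Q := by
  have h1 : commutator (Q n) ≤ (Gm Q).comap (dl Q n) := by
    rw [commutator_def, Subgroup.commutator_le]
    intro a _ b _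
    rw [commutatorElement_def, Subgroup.mem_comap]
    by_cases hab : a = b
    · subst hab
      have : a * a * a⁻¹ * a⁻¹ = 1 := by group
      rw [this, map_one]
      exact Subgroup.one_mem _
    · have h2 : (SemidirectProduct.inl (Pi.mulSingle n (Pi.mulSingle (ps Q n a)
          (a * b * a⁻¹ * b⁻¹))) : Big Q) ∈ Gm Q := by
        rw [← isolate Q n hab]
        rw [map_mul, map_mul, map_mul, map_inv, map_inv]
        have h3 := aa_mem Q
        have h4 := sh_mem Q h3 (((2 ^ ex Q n a : ℕ) : ℤ) - ((2 ^ ex Q n b : ℕ) : ℤ))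
        exact Subgroup.mul_mem _ (Subgroup.mul_mem _ (Subgroup.mul_mem _ h3 h4)
          (Subgroup.inv_mem _ h3)) (Subgroup.inv_mem _ h4)
      have h5 := sh_mem Q h2 (-((2 ^ ex Q n a : ℕ) : ℤ))
      rw [shF_single] at h5
      have h6 : ps Q n a + ((-((2 ^ ex Q n a : ℕ) : ℤ) : ℤ) : ZMod (mm Q n)) = 0 := by
        unfold ps
        push_cast
        ring
      rw [h6] at h5
      exact h5
  rw [hperf n] at h1
  exact h1 (Subgroup.mem_top x)

end Q24.Block
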