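import Pool.Agent.Q24.TFC.Block

/-!
# The block group is amenable; its finite images
-/

set_option autoImplicit false

namespace Q24.Block

open HJI.Fol

variable (Q : ℕ → Type) [∀ n, Group (Q n)] [∀ n, Fintype (Q n)]

/-- the restricted sum -/
noncomputable def Ds : Subgroup (FF Q) where
  carrier := {f | ∃ M : ℕ, ∀ n, M ≤ n → f n = 1}
  one_mem' := ⟨0, fun _ _ => rfl⟩
  mul_mem' := by
    rintro a b ⟨M, hM⟩ ⟨N, hN⟩
    refine ⟨max M N, fun n hn => ?_⟩
    rw [Pi.mul_apply, hM n (le_trans (le_max_left _ _) hn), hN n (le_trans (le_max_right _ _) hn),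
      one_mul]
  inv_mem' := by
    rintro a ⟨M, hM⟩
    refine ⟨M, fun n hn => ?_⟩
    rw [Pi.inv_apply, hM n hn, inv_one]

instance : (Ds Q).Normal := by
  constructor
  rintro a ⟨M, hM⟩ g
  refine ⟨M, fun n hn => ?_⟩
  rw [Pi.mul_apply, Pi.mul_apply, Pi.inv_apply, hM n hn, mul_one, mul_inv_cancel]

/-- elements supported below `M` -/
noncomputable def DsM (M : ℕ) : Subgroup (FF Q) where
  carrier := {f | ∀ n, M ≤ n → f n = 1}
  one_mem' := fun _ _ => rfl
  mul_mem' := by
    intro a b ha hb n hn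
    rw [Pi.mul_apply, ha n hn, hb n hn, one_mul]
  inv_mem' := by
    intro a ha n hn
    rw [Pi.inv_apply, ha n hn, inv_one]

theorem finite_DsM (M : ℕ) : Finite (DsM Q M) := by
  have hfin : Finite (∀ n : Fin M, ZMod (mm Q n) → Q n) := by
    have : ∀ n : Fin M, Finite (ZMod (mm Q n) → Q n) := fun n => inferInstance
    infer_instance
  refine Finite.of_injective (β := ∀ n : Fin M, ZMod (mm Q n) → Q n)
    (fun f => fun n => f.1 n) ?_
  intro f g h
  apply Subtype.ext
  funext n
  rcases Nat.lt_or_ge n M with h1 | h1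
  · exact congrFun h ⟨n, h1⟩
  · rw [f.2 n h1, g.2 n h1]

theorem fol_Ds : Fol (Ds Q) := by
  apply fol_of_locallyFinite
  intro S
  have h1 : ∀ s : Ds Q, ∃ M : ℕ, ∀ n, M ≤ n → s.1 n = 1 := fun s => s.2
  choose M hM using h1
  let N := S.sup M
  have h2 : (Subgroup.closure (S : Set (Ds Q))) ≤ (DsM Q N).comap (Ds Q).subtype := by
    rw [Subgroup.closure_le]
    intro s hs n hn
    exact hM s n ((Finset.le_sup (f := M) hs).trans hn)
  have := finite_DsM Q N
  refine Finite.of_injective (β := DsM Q N) (fun s => ⟨s.1.1, h2 s.2⟩) ?_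
  intro a b h
  have := congrArg Subtype.val h
  exact Subtype.ext (Subtype.ext this)

/-- the group generated by the shifts of the first generator -/
noncomputable def K0 : Subgroup (FF Q) := Subgroup.closure (Set.range fun k : ℤ => shF Q k (aa Q))

theorem comm_mem (k l : ℤ) : shF Q k (aa Q) * shF Q l (aa Q) * (shF Q k (aa Q))⁻¹ *
    (shF Q l (aa Q))⁻¹ ∈ Ds Q := by
  by_cases hkl : k = l
  · subst hkl
    have : shF Q k (aa Q) * shF Q k (aa Q) * (shF Q k (aa Q))⁻¹ * (shF Q k (aa Q))⁻¹ = 1 := by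
      group
    rw [this]
    exact Subgroup.one_mem _
  · refine ⟨(l - k).natAbs, fun n hn => ?_⟩
    funext i
    by_contra hcon
    simp only [Pi.mul_apply, Pi.inv_apply, Pi.one_apply] at hcon
    obtain ⟨x, y, _, h1, h2⟩ := comm_block Q (k := k) (l := l) (n := n) (i := i) (by
      intro e
      apply hcon
      rw [e]
      group)
    have hd := block_dvd Q h1 h2
    have h4 : ((2 ^ cc Q n : ℕ) : ℤ) ∣ (((2 ^ ex Q n x : ℕ) : ℤ) - ((2 ^ ex Q n y : ℕ) : ℤ)) := by
      apply dvd_sub
      · exact_mod_cast Nat.pow_dvd_pow 2 (ex_ge Q n x)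
      · exact_mod_cast Nat.pow_dvd_pow 2 (ex_ge Q n y)
    have h5 : ((2 ^ cc Q n : ℕ) : ℤ) ∣ ((2 ^ cc Q (n + 1) : ℕ) : ℤ) := by
      exact_mod_cast Nat.pow_dvd_pow 2 (cc_lt Q n).le
    have h6 := dvd_sub h4 (h5.trans hd)
    rw [sub_sub_cancel] at h6
    have h7 : l - k ≠ 0 := fun h => hkl (by omega)
    have h8 : (2 ^ cc Q n : ℕ) ∣ (l - k).natAbs := by
      rwa [Int.natCast_dvd] at h6
    have h9 := Nat.le_of_dvd (Int.natAbs_pos.2 h7) h8
    have h10 : n ≤ cc Q n := le_cc Q n
    have h11 : cc Q n < 2 ^ cc Q n := Nat.lt_two_pow_self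
    omega

theorem fol_K0 : Fol (K0 Q) := by
  let d : K0 Q →* FF Q ⧸ Ds Q := (QuotientGroup.mk' (Ds Q)).comp (K0 Q).subtype
  have hker : d.rangeRestrict.ker = d.ker := d.ker_rangeRestrict
  refine fol_ext d.rangeRestrict ?_ ?_
  · refine fol_of_injective (G := Ds Q) (H := d.rangeRestrict.ker)
      { toFun := fun x => ⟨x.1.1, ?_⟩, map_one' := rfl, map_mul' := fun _ _ => rfl } ?_ (fol_Ds Q)
    · have h1 : x.1 ∈ d.ker := by rw [← hker]; exact x.2
      exact (QuotientGroup.eq_one_iff _).1 h1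
    · intro a b h
      have := congrArg Subtype.val h
      exact Subtype.ext (Subtype.ext this)
  · -- the image is commutative
    have hcomm : ∀ a ∈ K0 Q, ∀ b ∈ K0 Q,
        Commute (QuotientGroup.mk' (Ds Q) a) (QuotientGroup.mk' (Ds Q) b) := by
      have h0 : ∀ k l : ℤ, Commute (QuotientGroup.mk' (Ds Q) (shF Q k (aa Q)))
          (QuotientGroup.mk' (Ds Q) (shF Q l (aa Q))) := by
        intro k l
        have h1 := (QuotientGroup.eq_one_iff (N := Ds Q) _).2 (comm_mem Q k l)
        have h2 : QuotientGroup.mk' (Ds Q) (shF Q k (aa Q) * shF Q l (aa Q) *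
          (shF Q k (aa Q))⁻¹ * (shF Q l (aa Q))⁻¹) = 1 := h1
        rw [map_mul, map_mul, map_mul, map_inv, map_inv, mul_inv_eq_one, mul_inv_eq_iff_eq_mul] at h2
        exact h2
      intro a ha
      induction ha using Subgroup.closure_induction with
      | mem a ha =>
        obtain ⟨k, rfl⟩ := ha
        intro b hb
        induction hb using Subgroup.closure_induction with
        | mem b hb =>
          obtain ⟨l, rfl⟩ := hb
          exact h0 k l
        | one => rw [map_one]; exact Commute.one_right _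
        | mul x y _ _ hx hy => rw [map_mul]; exact hx.mul_right hy
        | inv x _ hx => rw [map_inv]; exact hx.inv_right
      | one => intro b _; rw [map_one]; exact Commute.one_left _
      | mul x y _ _ hx hy => intro b hb; rw [map_mul]; exact (hx b hb).mul_left (hy b hb)
      | inv x _ hx => intro b hb; rw [map_inv]; exact (hx b hb).inv_left
    apply fol_comm
    rintro ⟨_, a, rfl⟩ ⟨_, b, rfl⟩
    exact Subtype.ext (hcomm a.1 a.2 b.1 b.2)

theorem shF_K0 {g : FF Q} (h : g ∈ K0 Q) (l : ℤ) : shF Q l g ∈ K0 Q := by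
  have h1 : (K0 Q) ≤ (K0 Q).comap (shF Q l) := by
    conv_lhs => unfold K0
    rw [Subgroup.closure_le]
    rintro _ ⟨k, rfl⟩
    show shF Q l (shF Q k (aa Q)) ∈ K0 Q
    rw [shF_comp]
    exact Subgroup.subset_closure ⟨_, rfl⟩
  exact h1 h

theorem left_mem {g : Big Q} (hg : g ∈ Gm Q) : g.left ∈ K0 Q := by
  induction hg using Subgroup.closure_induction with
  | mem g hg =>
    rcases hg with rfl | hg
    · refine Subgroup.subset_closure ⟨0, ?_⟩
      exact shF_zero Q _
    · have : g = tt Q := hg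
      subst this
      exact Subgroup.one_mem _
  | one => exact Subgroup.one_mem _
  | mul a b _ _ ha hb =>
    rw [SemidirectProduct.mul_left]
    exact Subgroup.mul_mem _ ha (shF_K0 Q hb _)
  | inv a _ ha =>
    rw [SemidirectProduct.inv_left]
    exact shF_K0 Q (Subgroup.inv_mem _ ha) _

theorem fol_Gm : Fol (Gm Q) := by
  let rh : Gm Q →* Multiplicative ℤ := SemidirectProduct.rightHom.comp (Gm Q).subtype
  refine fol_ext rh ?_ (fol_comm (fun a b => mul_comm a b))
  refine fol_of_injective (G := K0 Q) (H := rh.ker)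
    { toFun := fun x => ⟨x.1.1.left, left_mem Q x.1.2⟩, map_one' := rfl, map_mul' := ?_ } ?_
    (fol_K0 Q)
  · intro x y
    apply Subtype.ext
    show (x.1.1 * y.1.1).left = x.1.1.left * y.1.1.left
    rw [SemidirectProduct.mul_left]
    have : x.1.1.right = 1 := x.2
    rw [this, map_one]
    rfl
  · intro x y h
    have h1 : x.1.1.left = y.1.1.left := congrArg Subtype.val h
    have h2 : x.1.1.right = y.1.1.right := by
      have e1 : x.1.1.right = 1 := x.2
      have e2 : y.1.1.right = 1 := y.2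
      rw [e1, e2]
    exact Subtype.ext (Subtype.ext (SemidirectProduct.ext h1 h2))

/-- the action on one block -/
noncomputable def ch (n : ℕ) : Big Q →* Equiv.Perm (ZMod (mm Q n) × Q n) where
  toFun g :=
    { toFun := fun p => (p.1 + ((Multiplicative.toAdd g.right : ℤ) : ZMod (mm Q n)),
        g.left n (p.1 + ((Multiplicative.toAdd g.right : ℤ) : ZMod (mm Q n))) * p.2)
      invFun := fun p => (p.1 - ((Multiplicative.toAdd g.right : ℤ) : ZMod (mm Q n)),
        (g.left n p.1)⁻¹ * p.2)
      left_inv := fun p => by simp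
      right_inv := fun p => by simp }
  map_one' := by
    ext p
    · simp
    · simp
  map_mul' g h := by
    apply Equiv.ext
    intro p
    apply Prod.ext
    · show p.1 + ((Multiplicative.toAdd (g * h).right : ℤ) : ZMod (mm Q n)) =
        p.1 + ((Multiplicative.toAdd h.right : ℤ) : ZMod (mm Q n)) +
          ((Multiplicative.toAdd g.right : ℤ) : ZMod (mm Q n))
      rw [SemidirectProduct.mul_right, toAdd_mul]
      push_cast
      ring
    · show (g * h).left n (p.1 + ((Multiplicative.toAdd (g * h).right : ℤ) : ZMod (mm Q n))) * p.2 =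
        g.left n (p.1 + ((Multiplicative.toAdd h.right : ℤ) : ZMod (mm Q n)) +
          ((Multiplicative.toAdd g.right : ℤ) : ZMod (mm Q n))) *
        (h.left n (p.1 + ((Multiplicative.toAdd h.right : ℤ) : ZMod (mm Q n))) * p.2)
      rw [SemidirectProduct.mul_right, toAdd_mul, SemidirectProduct.mul_left, Pi.mul_apply,
        Pi.mul_apply, φ_apply, shF_apply, mul_assoc]
      congr 2
      · push_cast
        ring_nf
      · push_cast
        ring_nf

theorem ch_inl (n : ℕ) (f : FF Q) (p : ZMod (mm Q n) × Q n) :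
    ch Q n (SemidirectProduct.inl f) p = (p.1, f n p.1 * p.2) := by
  have h1 : (ch Q n (SemidirectProduct.inl f) p).1 = p.1 := by
    show p.1 + ((Multiplicative.toAdd (1 : Multiplicative ℤ) : ℤ) : ZMod (mm Q n)) = p.1
    simp
  have h2 : (ch Q n (SemidirectProduct.inl f) p).2 = f n p.1 * p.2 := by
    show f n (p.1 + ((Multiplicative.toAdd (1 : Multiplicative ℤ) : ℤ) : ZMod (mm Q n))) * p.2 = _
    simp
  exact Prod.ext h1 h2

theorem zero_ne (n : ℕ) : ((-1 : ℤ) : ZMod (mm Q n)) ≠ 0 := by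
  have h1 : 1 < mm Q n := by
    have : cc Q n < cc Q (n + 1) := cc_lt Q n
    exact Nat.one_lt_two_pow (by omega)
  have : Fact (1 < mm Q n) := ⟨h1⟩
  have : Nontrivial (ZMod (mm Q n)) := ZMod.nontrivial _
  simp

/-- The block group: a finitely generated amenable group containing commuting copies of the
finite perfect groups `Q n`, each of which can be separated in a finite quotient. -/
theorem block (hperf : ∀ n, commutator (Q n) = ⊤) :
    ∃ (Γ : Type) (_ : Group Γ) (δ : ∀ n, Q n →* Γ) (t : Γ) (L : ℕ → Type)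
      (_ : ∀ n, Group (L n)) (χ : ∀ n, Γ →* L n),
      Group.FG Γ ∧ Fol Γ ∧ (∀ n, Finite (L n)) ∧
      (∀ m n, m ≠ n → ∀ x y, Commute (δ m x) (δ n y)) ∧
      (∀ m n, m ≠ n → ∀ x, χ n (δ m x) = 1) ∧
      (∀ n x x', χ n (t⁻¹ * δ n x * t) = χ n (δ n x') → x = 1) ∧
      (∀ n x, χ n (δ n x) = 1 → x = 1) := by
  refine ⟨Gm Q, inferInstance, fun n => (dl Q n).codRestrict _ (dl_mem Q hperf n),
    ⟨tt Q, tt_mem Q⟩, fun n => Equiv.Perm (ZMod (mm Q n) × Q n), fun n => inferInstance,
    fun n => (ch Q n).comp (Gm Q).subtype, ?_, fol_Gm Q, ?_, ?_, ?_, ?_, ?_⟩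
  · rw [Group.fg_iff_subgroup_fg]
    exact ⟨({SemidirectProduct.inl (aa Q), tt Q} : Set (Big Q)).toFinite.toFinset, by
      rw [Set.Finite.coe_toFinset]; rfl⟩
  · intro n
    infer_instance
  · intro m n hmn x y
    apply Subtype.ext
    show dl Q m x * dl Q n y = dl Q n y * dl Q m x
    rw [dl_apply, dl_apply, ← map_mul, ← map_mul]
    congr 1
    exact Pi.mulSingle_commute hmn _ _
  · intro m n hmn x
    show ch Q n (dl Q m x) = 1
    apply Equiv.ext
    intro p
    rw [dl_apply, ch_inl, Pi.mulSingle_eq_of_ne (Ne.symm hmn)]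
    simp
  · intro n x x' h
    have h1 : ch Q n ((tt Q)⁻¹ * dl Q n x * tt Q) = ch Q n (dl Q n x') := h
    have h2 : (tt Q)⁻¹ * dl Q n x * tt Q =
        SemidirectProduct.inl (shF Q (-1) (Pi.mulSingle n (Pi.mulSingle 0 x))) := by
      have h3 := SemidirectProduct.inl_aut (φ := φ Q) (Multiplicative.ofAdd (-1))
        (Pi.mulSingle n (Pi.mulSingle 0 x))
      rw [φ_apply, toAdd_ofAdd] at h3
      rw [h3, dl_apply]
      have h4 : (SemidirectProduct.inr (Multiplicative.ofAdd (-1)) : Big Q) = (tt Q)⁻¹ := by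
        unfold tt
        rw [← map_inv]
        rfl
      have h5 : (SemidirectProduct.inr (Multiplicative.ofAdd (-1))⁻¹ : Big Q) = tt Q := rfl
      rw [h4, h5]
    rw [h2, shF_single, dl_apply] at h1
    have h3 := congrArg (fun e => (e (((-1 : ℤ) : ZMod (mm Q n)), (1 : Q n))).2) h1
    simp only [ch_inl, Pi.mulSingle_eq_same, zero_add, mul_one] at h3
    rw [Pi.mulSingle_eq_of_ne (zero_ne Q n)] at h3
    exact h3
  · intro n x h
    have h1 : ch Q n (dl Q n x) = 1 := h
    rw [dl_apply] at h1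
    have h3 := congrArg (fun e => (e ((0 : ZMod (mm Q n)), (1 : Q n))).2) h1
    simp only [ch_inl, Pi.mulSingle_eq_same, mul_one] at h3
    exact h3

end Q24.Block
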