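import Pool.Agent.Q24.TFC.Amb2

/-!
# Every finitely generated amenable group has a torsion-free cover killing the kernel in all
finite quotients
-/

set_option autoImplicit false

namespace Q24.TFC

open HJI.Fol

theorem tf_abelianization_free (β : Type) : TF (Abelianization (FreeGroup β)) := by
  intro g n hn hg
  have key : ∀ a : FreeAbelianGroup β, n • a = 0 → a = 0 := by
    intro a ha
    apply (FreeAbelianGroup.equivFinsupp β).injective
    rw [map_zero]
    have h1 : n • (FreeAbelianGroup.equivFinsupp β a) = 0 := by rw [← map_nsmul, ha, map_zero]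
    ext i
    have h2 := DFunLike.congr_fun h1 i
    simp only [Finsupp.coe_smul, Pi.smul_apply, nsmul_eq_mul, Finsupp.coe_zero,
      Pi.zero_apply, mul_eq_zero] at h2
    rcases h2 with h2 | h2
    · have : n = 0 := by exact_mod_cast h2
      omega
    · simpa using h2
  exact key (Additive.ofMul g) hg

theorem comm_of_pow (β : Type) {x : FreeGroup β} {n : ℕ} (hn : 0 < n)
    (h : x ^ n ∈ commutator (FreeGroup β)) : x ∈ commutator (FreeGroup β) := by
  have h1 : ∀ y : FreeGroup β, y ∈ commutator (FreeGroup β) ↔ Abelianization.of y = 1 := by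
    intro y
    rw [← MonoidHom.mem_ker, Abelianization.ker_of]
  rw [h1] at h ⊢
  rw [map_pow] at h
  exact tf_abelianization_free β _ n hn h

theorem comm_of_pow' {S : Type} [Group S] [IsFreeGroup S] {x : S} {n : ℕ} (hn : 0 < n)
    (h : x ^ n ∈ commutator S) : x ∈ commutator S := by
  let e := IsFreeGroup.toFreeGroup S
  have hmap : (commutator S).map e.toMonoidHom = commutator (FreeGroup (IsFreeGroup.Generators S)) := by
    rw [commutator_def, Subgroup.map_commutator, commutator_def]
    have : (⊤ : Subgroup S).map e.toMonoidHom = ⊤ := by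
      rw [← MonoidHom.range_eq_map]
      exact MonoidHom.range_eq_top.2 e.surjective
    rw [this]
  have h1 : (e x) ^ n ∈ commutator (FreeGroup (IsFreeGroup.Generators S)) := by
    rw [← map_pow, ← hmap]
    exact ⟨x ^ n, h, rfl⟩
  have h2 := comm_of_pow _ hn h1
  rw [← hmap] at h2
  obtain ⟨y, hy, hxy⟩ := h2
  have : y = x := e.injective hxy
  rwa [← this]

theorem mem_comm_of_pow {F : Type} [Group F] [IsFreeGroup F] (S : Subgroup F) {x : F}
    (hx : x ∈ S) {n : ℕ} (hn : 0 < n) (h : x ^ n ∈ ⁅S, S⁆) : x ∈ ⁅S, S⁆ := by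
  rw [← Subgroup.map_subtype_commutator] at h ⊢
  obtain ⟨y, hy, hyx⟩ := h
  have h1 : y = (⟨x, hx⟩ : S) ^ n := Subtype.ext hyx
  rw [h1] at hy
  exact ⟨⟨x, hx⟩, comm_of_pow' hn hy, rfl⟩

/-- `F / [R, R]` is torsion-free -/
theorem tf_quotient {F : Type} [Group F] [IsFreeGroup F] (R : Subgroup F) [R.Normal] :
    TF (F ⧸ ⁅R, R⁆) := by
  intro gq n hn hg
  induction gq using QuotientGroup.induction_on with
  | H g =>
  have h1 : g ^ n ∈ ⁅R, R⁆ := by
    rw [← QuotientGroup.eq_one_iff]
    exact hg
  rw [QuotientGroup.eq_one_iff]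
  have h2 : g ∈ R := by
    let S : Subgroup F := R ⊔ Subgroup.zpowers g
    have hgS : g ∈ S := Subgroup.mem_sup_right (Subgroup.mem_zpowers g)
    have h3 : g ∈ ⁅S, S⁆ :=
      mem_comm_of_pow S hgS hn (Subgroup.commutator_mono le_sup_left le_sup_left h1)
    have h4 : ⁅S, S⁆ ≤ R := by
      rw [Subgroup.commutator_le]
      have h5 : ∀ s ∈ S, (QuotientGroup.mk' R s) ∈ Subgroup.zpowers (QuotientGroup.mk' R g) := by
        intro s hs
        have : S.map (QuotientGroup.mk' R) ≤ Subgroup.zpowers (QuotientGroup.mk' R g) := by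
          rw [Subgroup.map_sup, sup_le_iff]
          constructor
          · rintro _ ⟨r, hr, rfl⟩
            have : QuotientGroup.mk' R r = 1 := (QuotientGroup.eq_one_iff r).2 hr
            rw [this]
            exact Subgroup.one_mem _
          · rw [MonoidHom.map_zpowers]
        exact this ⟨s, hs, rfl⟩
      intro a ha b hb
      have h6 : QuotientGroup.mk' R (a * b * a⁻¹ * b⁻¹) = 1 := by
        rw [map_mul, map_mul, map_mul, map_inv, map_inv]
        obtain ⟨k, hk⟩ := h5 a ha
        obtain ⟨l, hl⟩ := h5 b hb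
        simp only at hk hl
        rw [← hk, ← hl]
        group
      exact (QuotientGroup.eq_one_iff _).1 h6
    exact h4 h3
  exact mem_comm_of_pow R h2 hn h1

/-- The torsion-free cover. -/
theorem cover (Γ : Type) [Group Γ] (hfg : Group.FG Γ) (hf : Fol Γ) :
    ∃ (E G0 : Type) (_ : Group E) (_ : Group G0) (i : G0 →* E) (r : E →* Γ),
      Group.FG E ∧ Good E ∧ Function.Surjective (r.comp i) ∧
      ∀ (P : Type) [Group P] [Finite P] (φ : E →* P) (y : G0), r (i y) = 1 → φ (i y) = 1 := by
  classical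
  obtain ⟨S, hS⟩ := Group.fg_iff.1 hfg
  obtain ⟨hS1, hS2⟩ := hS
  have hSf : Finite S := hS2
  have hcount : Countable (FreeGroup S) := inferInstance
  let π : FreeGroup S →* Γ := FreeGroup.lift (fun s : S => s.1)
  have hπ : Function.Surjective π := by
    rw [← MonoidHom.range_eq_top]
    have h1 : π.range = Subgroup.closure (Set.range (fun s : S => s.1)) :=
      FreeGroup.range_lift_eq_closure
    rw [h1, Subtype.range_coe_subtype]
    exact hS1
  let R : Subgroup (FreeGroup S) := π.ker
  let G0 : Type := FreeGroup S ⧸ ⁅R, R⁆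
  let q : FreeGroup S →* G0 := QuotientGroup.mk' ⁅R, R⁆
  have hq : Function.Surjective q := QuotientGroup.mk'_surjective _
  have hle : ⁅R, R⁆ ≤ π.ker := Subgroup.commutator_le_left R R
  let πb : G0 →* Γ := QuotientGroup.lift ⁅R, R⁆ π (fun x hx => hle hx)
  have hπb : ∀ x, πb (q x) = π x := fun x => rfl
  -- the kernel is abelian
  have hker : ∀ y : G0, πb y = 1 → ∃ x ∈ R, q x = y := by
    intro y hy
    obtain ⟨x, rfl⟩ := hq y
    exact ⟨x, hy, rfl⟩
  have hab : ∀ a b : G0, πb a = 1 → πb b = 1 → a * b = b * a := by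
    intro a b ha hb
    obtain ⟨x, hx, rfl⟩ := hker a ha
    obtain ⟨y, hy, rfl⟩ := hker b hb
    rw [← commutatorElement_eq_one_iff_mul_comm, ← map_commutatorElement]
    exact (QuotientGroup.eq_one_iff _).2 (Subgroup.commutator_mem_commutator hx hy)
  let Λ : Subgroup G0 := πb.ker
  let _ : CommGroup Λ :=
    { (inferInstance : Group Λ) with
      mul_comm := fun a b => Subtype.ext (hab a.1 b.1 a.2 b.2) }
  have hgood0 : Good G0 := by
    refine ⟨tf_quotient R, ?_⟩
    refine fol_ext πb ?_ hf
    exact fol_comm (fun a b => Subtype.ext (hab a.1 b.1 a.2 b.2))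
  let ρ : G0 →* MulAut Λ := MulAut.conjNormal
  let j : Λ →* G0 := Λ.subtype
  have hc : Comp ρ j := by
    constructor
    · intro g a
      exact MulAut.conjNormal_apply g a
    · intro a b
      apply Subtype.ext
      show ((MulAut.conjNormal (a : G0) b : Λ) : G0) = b
      rw [MulAut.conjNormal_apply, hab a.1 b.1 a.2 b.2, mul_inv_cancel_right]
  have hcountG0 : Countable G0 := hq.countable
  have hcountΛ : Countable Λ := inferInstance
  obtain ⟨lam, hlam⟩ := exists_surjective_nat Λ
  let f : ℤ → Λ := fun k => if 0 ≤ k then lam k.toNat else 1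
  have hf1 : ∀ n : ℕ, f n = lam n := by
    intro n
    simp [f]
  have hf2 : ∀ k : ℤ, k < 0 → f k = 1 := by
    intro k hk
    simp only [f]
    rw [if_neg (by omega)]
  -- the finitely generated subgroup
  let gens : Set (AmbG hc) :=
    Set.range (fun s : S => i0 hc (q (FreeGroup.of s))) ∪ {F hc f, uu hc, ss hc}
  let E : Subgroup (AmbG hc) := Subgroup.closure gens
  have hfin : gens.Finite := (Set.finite_range _).union (by simp)
  have hFE : F hc f ∈ E := Subgroup.subset_closure (Or.inr (by simp))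
  have huE : uu hc ∈ E := Subgroup.subset_closure (Or.inr (by simp))
  have hsE : ss hc ∈ E := Subgroup.subset_closure (Or.inr (by simp))
  have hFk : ∀ k : ℤ, F hc (sh Λ k f) ∈ E := by
    have hpos : ∀ n : ℕ, F hc (sh Λ n f) ∈ E := by
      intro n
      have h1 := shift_pow hc f n
      have h2 : F hc (sh Λ n f) = ss hc ^ n * F hc f * (ss hc ^ n)⁻¹ := by
        rw [h1, mul_inv_cancel_right]
      rw [h2]
      exact E.mul_mem (E.mul_mem (E.pow_mem hsE n) hFE) (E.inv_mem (E.pow_mem hsE n))
    have hneg : ∀ n : ℕ, F hc (sh Λ (-(n : ℤ)) f) ∈ E := by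
      intro n
      have h1 := shift_pow hc (sh Λ (-(n : ℤ)) f) n
      have e : sh Λ n (sh Λ (-(n : ℤ)) f) = f := by
        funext i
        simp only [sh_apply]
        congr 1
        ring
      rw [e] at h1
      have h2 : F hc (sh Λ (-(n : ℤ)) f) = (ss hc ^ n)⁻¹ * F hc f * (ss hc ^ n) := by
        rw [mul_assoc, ← h1, inv_mul_cancel_left]
      rw [h2]
      exact E.mul_mem (E.mul_mem (E.inv_mem (E.pow_mem hsE n)) hFE) (E.pow_mem hsE n)
    intro k
    obtain ⟨n, rfl | rfl⟩ := Int.eq_nat_or_neg k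
    · exact hpos n
    · exact hneg n
  have hiE : ∀ x : G0, i0 hc x ∈ E := by
    intro x
    obtain ⟨w, rfl⟩ := hq x
    have h1 : (⊤ : Subgroup (FreeGroup S)) ≤ E.comap ((i0 hc).comp q) := by
      rw [← FreeGroup.closure_range_of, Subgroup.closure_le]
      rintro _ ⟨s, rfl⟩
      exact Subgroup.subset_closure (Or.inl ⟨s, rfl⟩)
    exact h1 (Subgroup.mem_top w)
  let r0 : AmbG hc →* Γ :=
    { toFun := fun a => πb (Amb.x a)
      map_one' := by
        show πb 1 = 1
        exact map_one _
      map_mul' := by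
        intro a b
        show πb (Amb.x a * j (Amb.p a (sh Λ (Amb.k a) (Amb.f b))) * Amb.x b) = _
        rw [map_mul, map_mul]
        have : πb (j (Amb.p a (sh Λ (Amb.k a) (Amb.f b)))) = 1 :=
          (Amb.p a (sh Λ (Amb.k a) (Amb.f b))).2
        rw [this, mul_one] }
  let i : G0 →* E := (i0 hc).codRestrict E hiE
  let r : E →* Γ := r0.comp E.subtype
  have hri : ∀ y, r (i y) = πb y := fun y => rfl
  have hΛTF : TF Λ := tf_of_injective Λ.subtype Subtype.val_injective hgood0.1
  refine ⟨E, G0, inferInstance, inferInstance, i, r, ?_, ?_, ?_, ?_⟩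
  · rw [Group.fg_iff_subgroup_fg]
    exact ⟨hfin.toFinset, by rw [Set.Finite.coe_toFinset]⟩
  · exact good_of_injective E.subtype Subtype.val_injective (good_amb hc hΛTF hgood0)
  · intro γ
    obtain ⟨w, hw⟩ := hπ γ
    exact ⟨q w, hw⟩
  · intro P _ _ φ y hy
    rw [hri] at hy
    obtain ⟨n, hn⟩ := hlam ⟨y, hy⟩
    have h1 := killed hc φ lam f hf1 hf2 hsE huE hFk hiE n
    have h2 : (⟨i0 hc (j (lam n)), hiE _⟩ : E) = i y := by
      apply Subtype.ext
      show i0 hc (j (lam n)) = i0 hc y
      rw [hn]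
      rfl
    rw [h2] at h1
    exact h1

end Q24.TFC
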