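import Pool.Agent.Q24.TFC.Cover
import Pool.Agent.Q24.TFC.Block2
import Pool.Agent.Q24.ProfCompl

/-!
# Closed subgroups with trivial rational core
-/

set_option autoImplicit false

namespace Q24.TFC

open HJI.Fol Q24.ProfCompl

universe u v

/-- The profinite completion of a discrete group. -/
abbrev Hat (G : Type) [Group G] : Subgroup (∀ i : Idx (fun _ : Subgroup G => True), Quo i) :=
  Grp (fun _ : Subgroup G => True)

/-- The canonical map to the profinite completion. -/
abbrev toHat (G : Type) [Group G] : G →* Hat G := can' (fun _ : Subgroup G => True)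

theorem exists_cme {A : Type u} {B : Type v} [Group A] [TopologicalSpace A] [CompactSpace A]
    [Group B] [TopologicalSpace B] [T2Space B] (f : A →* B) (hf : Continuous f)
    (hb : Function.Bijective f) : Nonempty (A ≃ₜ* B) := by
  let e : A ≃* B := MulEquiv.ofBijective f hb
  have h1 : Continuous e.symm :=
    Continuous.continuous_symm_of_equiv_compact_to_t2 (f := e.toEquiv) hf
  exact ⟨{ e with continuous_toFun := hf, continuous_invFun := h1 }⟩

/-- Realization: if `H` embeds in a product of finite perfect groups that are eventually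
large simple, it is a closed subgroup with trivial rational core. -/
theorem realize (Q : ℕ → Type) [∀ n, Group (Q n)] [∀ n, Fintype (Q n)]
    [∀ n, TopologicalSpace (Q n)] [∀ n, DiscreteTopology (Q n)]
    (hperf : ∀ n, commutator (Q n) = ⊤)
    (hvan : ∀ (P : Type) [Group P] [Finite P], ∃ n0, ∀ n, n0 ≤ n → ∀ f : Q n →* P, f = 1)
    (H : Type u) [Group H] [TopologicalSpace H] [CompactSpace H] [T2Space H]
    (jj : H →* ∀ n, Q n) (hj : Continuous jj) (hji : Function.Injective jj) :
    ∃ (E : Type) (_ : Group E) (D : Subgroup (Hat E)), Group.FG E ∧ Good E ∧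
      IsClosed (D : Set (Hat E)) ∧ Nonempty (D ≃ₜ* H) ∧
      ∀ x : Hat E, (∀ k : E, (toHat E k)⁻¹ * x * toHat E k ∈ D) → x = 1 := by
  classical
  obtain ⟨Γ, _, δ, t, L, _, χ, hfgΓ, hfolΓ, hLfin, hcomm, hχ1, hχ2, hχ3⟩ := Block.block Q hperf
  obtain ⟨E, G0, _, _, i, r, hfgE, hgoodE, hsurj, hkill⟩ := cover Γ hfgΓ hfolΓ
  have hprof := isProfinite_Grp (fun _ : Subgroup E => True)
  have hcompact : CompactSpace (Hat E) := hprof.compact
  have hT2 : T2Space (Hat E) := hprof.t2
  have htg : IsTopologicalGroup (Hat E) := hprof.topGroup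
  let gens : Set ((∀ n, Q n) × Hat E) :=
    {z | ∃ (n : ℕ) (x : Q n) (y : G0), r (i y) = δ n x ∧ z = (Pi.mulSingle n x, toHat E (i y))}
  let Gr : Subgroup ((∀ n, Q n) × Hat E) := (Subgroup.closure gens).topologicalClosure
  have hGrc : IsClosed (Gr : Set ((∀ n, Q n) × Hat E)) := Subgroup.isClosed_topologicalClosure _
  have hGrmin : ∀ T : Subgroup ((∀ n, Q n) × Hat E), IsClosed (T : Set ((∀ n, Q n) × Hat E)) →
      gens ⊆ T → Gr ≤ T := by
    intro T hT hg
    exact Subgroup.topologicalClosure_minimal _ ((Subgroup.closure_le _).2 hg) hT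
  -- Claim A
  have claimA : ∀ z ∈ Gr, z.1 = 1 → z.2 = 1 := by
    intro z hz hz1
    apply Subtype.ext
    funext I
    let φI : E →* Quo I := (QuotientGroup.mk' I.N : E →* E ⧸ I.N)
    have hφk : (r.comp i).ker ≤ (φI.comp i).ker := by
      intro y hy
      exact hkill (Quo I) φI y hy
    let ψ : Γ →* Quo I := (r.comp i).liftOfSurjective hsurj ⟨φI.comp i, hφk⟩
    have hψ : ∀ y, ψ (r (i y)) = φI (i y) := fun y =>
      MonoidHom.liftOfRightInverse_comp_apply (r.comp i) _ (Function.rightInverse_surjInv hsurj)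
        ⟨φI.comp i, hφk⟩ y
    obtain ⟨n0, hn0⟩ := hvan (Quo I)
    have hcm : Pairwise fun a b : Fin n0 => ∀ x y,
        Commute ((ψ.comp (δ a)) x) ((ψ.comp (δ b)) y) := by
      intro a b hab x y
      exact (hcomm a b (fun h => hab (Fin.ext h)) x y).map ψ
    let N0 : Fin n0 → Type := fun a => Q a
    let res : (∀ n, Q n) →* (∀ a : Fin n0, Q a) :=
      MonoidHom.pi fun a => Pi.evalMonoidHom (fun n => Q n) (a : ℕ)
    let Ψ : (∀ n, Q n) →* Quo I :=
      (MonoidHom.noncommPiCoprod (fun a : Fin n0 => ψ.comp (δ a)) hcm).comp res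
    have hΨ : ∀ n x, Ψ (Pi.mulSingle n x) = ψ (δ n x) := by
      intro n x
      by_cases hn : n < n0
      · have h1 : res (Pi.mulSingle n x) = Pi.mulSingle (⟨n, hn⟩ : Fin n0) x := by
          funext a
          show (Pi.mulSingle n x : ∀ n, Q n) a = _
          by_cases ha : a = ⟨n, hn⟩
          · subst ha
            rw [Pi.mulSingle_eq_same, Pi.mulSingle_eq_same]
          · rw [Pi.mulSingle_eq_of_ne ha, Pi.mulSingle_eq_of_ne]
            intro h
            exact ha (Fin.ext h)
        show (MonoidHom.noncommPiCoprod (fun a : Fin n0 => ψ.comp (δ a)) hcm)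
          (res (Pi.mulSingle n x)) = _
        rw [h1, MonoidHom.noncommPiCoprod_mulSingle]
        rfl
      · have h1 : res (Pi.mulSingle n x) = 1 := by
          funext a
          show (Pi.mulSingle n x : ∀ n, Q n) a = _
          rw [Pi.mulSingle_eq_of_ne]
          · rfl
          · intro h
            exact hn (h ▸ a.2)
        show (MonoidHom.noncommPiCoprod (fun a : Fin n0 => ψ.comp (δ a)) hcm)
          (res (Pi.mulSingle n x)) = _
        rw [h1, map_one]
        have := hn0 n (not_lt.1 hn) (ψ.comp (δ n))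
        exact (DFunLike.congr_fun this x).symm
    have hΨc : Continuous Ψ := by
      have h1 : Continuous res := continuous_pi fun a => continuous_apply (a : ℕ)
      have h2 : Continuous (MonoidHom.noncommPiCoprod (fun a : Fin n0 => ψ.comp (δ a)) hcm) :=
        continuous_of_discreteTopology
      exact h2.comp h1
    let ev : Hat E →* Quo I := (Pi.evalMonoidHom (fun I => Quo I) I).comp (Hat E).subtype
    have hev : Continuous ev := (continuous_apply I).comp continuous_subtype_val
    let T : Subgroup ((∀ n, Q n) × Hat E) :=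
      MonoidHom.eqLocus (Ψ.comp (MonoidHom.fst _ _)) (ev.comp (MonoidHom.snd _ _))
    have hT : Gr ≤ T := by
      apply hGrmin
      · exact isClosed_eq (hΨc.comp continuous_fst) (hev.comp continuous_snd)
      · rintro _ ⟨n, x, y, hxy, rfl⟩
        show Ψ (Pi.mulSingle n x) = ev (toHat E (i y))
        rw [hΨ, ← hxy, hψ]
        rfl
    have h1 : Ψ z.1 = ev z.2 := hT hz
    rw [hz1, map_one] at h1
    exact h1.symm
  -- Claim B
  have claimB : ∀ n, ∃ χh : Hat E →* L n, (∀ e, χh (toHat E e) = χ n (r e)) ∧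
      ∀ z ∈ Gr, χh z.2 = χ n (δ n (z.1 n)) := by
    intro n
    let _ : TopologicalSpace (L n) := ⊥
    have : DiscreteTopology (L n) := ⟨rfl⟩
    have := hLfin n
    obtain ⟨χh, hχc, hχe⟩ := exists_finite (fun _ : Subgroup E => True) ((χ n).comp r) trivial
    refine ⟨χh, fun e => hχe e, ?_⟩
    intro z hz
    let β : (∀ n, Q n) →* L n := ((χ n).comp (δ n)).comp (Pi.evalMonoidHom (fun n => Q n) n)
    have hβ : Continuous β := by
      have h1 : Continuous ((χ n).comp (δ n)) := continuous_of_discreteTopology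
      exact h1.comp (continuous_apply n)
    let T : Subgroup ((∀ n, Q n) × Hat E) :=
      MonoidHom.eqLocus (β.comp (MonoidHom.fst _ _)) (χh.comp (MonoidHom.snd _ _))
    have hT : Gr ≤ T := by
      apply hGrmin
      · exact isClosed_eq (hβ.comp continuous_fst) (hχc.comp continuous_snd)
      · rintro _ ⟨m, x, y, hxy, rfl⟩
        show χ n (δ n ((Pi.mulSingle m x : ∀ n, Q n) n)) = χh (toHat E (i y))
        have h1 := hχe (i y)
        have h2 : ((χ n).comp r) (i y) = χ n (δ m x) := by
          show χ n (r (i y)) = _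
          rw [hxy]
        by_cases hmn : n = m
        · subst hmn
          rw [Pi.mulSingle_eq_same]
          exact (h1.trans h2).symm
        · rw [Pi.mulSingle_eq_of_ne hmn, map_one, map_one]
          rw [hχ1 m n (Ne.symm hmn)] at h2
          exact (h1.trans h2).symm
    exact (hT hz : β z.1 = χh z.2).symm
  -- surjectivity
  have hlift : ∀ n x, ∃ g, ((Pi.mulSingle n x : ∀ n, Q n), g) ∈ Gr := by
    intro n x
    obtain ⟨y, hy⟩ := hsurj (δ n x)
    exact ⟨toHat E (i y), Subgroup.le_topologicalClosure _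
      (Subgroup.subset_closure ⟨n, x, y, hy, rfl⟩)⟩
  have hsur : ∀ q : ∀ n, Q n, ∃ g, (q, g) ∈ Gr := by
    let K : Subgroup (∀ n, Q n) := Gr.map (MonoidHom.fst _ _)
    have hK : ∀ q, q ∈ K ↔ ∃ g, (q, g) ∈ Gr := by
      intro q
      constructor
      · rintro ⟨⟨q', g⟩, h1, rfl⟩
        exact ⟨g, h1⟩
      · rintro ⟨g, h1⟩
        exact ⟨(q, g), h1, rfl⟩
    have hKc : IsClosed (K : Set (∀ n, Q n)) := by
      have : (K : Set (∀ n, Q n)) = Prod.fst '' (Gr : Set ((∀ n, Q n) × Hat E)) := rfl
      rw [this]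
      exact (hGrc.isCompact.image continuous_fst).isClosed
    intro q
    rw [← hK]
    let tr : ℕ → ∀ n, Q n := fun M n => if n < M then q n else 1
    have htr : ∀ M, tr M ∈ K := by
      intro M
      induction M with
      | zero =>
        have : tr 0 = 1 := by funext n; simp [tr]
        rw [this]
        exact Subgroup.one_mem _
      | succ M ih =>
        have : tr (M + 1) = tr M * Pi.mulSingle M (q M) := by
          funext n
          rw [Pi.mul_apply]
          simp only [tr]
          by_cases hn : n = M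
          · subst hn
            simp
          · rw [Pi.mulSingle_eq_of_ne hn, mul_one]
            have : n < M + 1 ↔ n < M := by omega
            simp [this]
        rw [this]
        exact Subgroup.mul_mem _ ih ((hK _).2 (hlift M (q M)))
    have hlim : Filter.Tendsto tr Filter.atTop (nhds q) := by
      rw [tendsto_pi_nhds]
      intro n
      apply tendsto_const_nhds.congr'
      filter_upwards [Filter.eventually_gt_atTop n] with M hM
      simp [tr, hM]
    exact hKc.mem_of_tendsto hlim (Filter.Eventually.of_forall htr)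
  -- the subgroup D
  let GH : Subgroup (H × Hat E) := Gr.comap (jj.prodMap (MonoidHom.id (Hat E)))
  have hGHc : IsClosed (GH : Set (H × Hat E)) :=
    hGrc.preimage (hj.prodMap continuous_id)
  have hGHcomp : CompactSpace GH := isCompact_iff_compactSpace.mp hGHc.isCompact
  let D : Subgroup (Hat E) := GH.map (MonoidHom.snd _ _)
  have hDc : IsClosed (D : Set (Hat E)) := by
    have : (D : Set (Hat E)) = Prod.snd '' (GH : Set (H × Hat E)) := rfl
    rw [this]
    exact (hGHc.isCompact.image continuous_snd).isClosed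
  have hD : ∀ g, g ∈ D ↔ ∃ h, (jj h, g) ∈ Gr := by
    intro g
    constructor
    · rintro ⟨⟨h, g'⟩, h1, rfl⟩
      exact ⟨h, h1⟩
    · rintro ⟨h, h1⟩
      exact ⟨(h, g), h1, rfl⟩
  have hGH : ∀ z : H × Hat E, z ∈ GH ↔ (jj z.1, z.2) ∈ Gr := fun z => Iff.rfl
  obtain ⟨e1⟩ := exists_cme (A := GH) (B := H)
    ((MonoidHom.fst _ _).comp GH.subtype) (continuous_fst.comp continuous_subtype_val) (by
      constructor
      · rw [injective_iff_map_eq_one]
        rintro ⟨⟨h, g⟩, hz⟩ h1
        have h1' : h = 1 := h1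
        subst h1'
        have h2 := claimA _ ((hGH _).1 hz) (map_one jj)
        apply Subtype.ext
        exact Prod.ext rfl h2
      · intro h
        obtain ⟨g, hg⟩ := hsur (jj h)
        exact ⟨⟨(h, g), hg⟩, rfl⟩)
  obtain ⟨e2⟩ := exists_cme (A := GH) (B := D)
    (((MonoidHom.snd _ _).comp GH.subtype).codRestrict D
      (fun z => ⟨z.1, z.2, rfl⟩))
    (Continuous.subtype_mk (continuous_snd.comp continuous_subtype_val) _) (by
      constructor
      · rw [injective_iff_map_eq_one]
        rintro ⟨⟨h, g⟩, hz⟩ h1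
        have h1' : g = 1 := congrArg Subtype.val h1
        subst h1'
        have h2 : h = 1 := by
          apply hji
          rw [map_one]
          funext n
          obtain ⟨χh, _, h3⟩ := claimB n
          have h4 := h3 _ ((hGH _).1 hz)
          rw [map_one] at h4
          exact hχ3 n _ h4.symm
        subst h2
        rfl
      · rintro ⟨g, ⟨z, hz, rfl⟩⟩
        exact ⟨⟨z, hz⟩, rfl⟩)
  refine ⟨E, inferInstance, D, hfgE, hgoodE, hDc, ⟨e2.symm.trans e1⟩, ?_⟩
  intro x hx
  have h1 := hx 1
  rw [map_one, inv_one, one_mul, mul_one, hD] at h1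
  obtain ⟨h, hh⟩ := h1
  obtain ⟨yt, hyt⟩ := hsurj t
  have h2 := hx (i yt)
  rw [hD] at h2
  obtain ⟨h', hh'⟩ := h2
  refine claimA _ hh ?_
  funext n
  obtain ⟨χh, hχe, h3⟩ := claimB n
  have h4 := h3 _ hh
  have h5 := h3 _ hh'
  simp only [map_mul, map_inv] at h5
  rw [h4, hχe] at h5
  have hyt' : r (i yt) = t := hyt
  rw [hyt', ← map_inv, ← map_mul, ← map_mul] at h5
  exact hχ2 n _ _ h5

end Q24.TFC
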