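import Pool.Agent.Q24.TFC.Final
import Pool.Agent.Q24.TFC.Alt

/-!
# The profinite groups that occur
-/

set_option autoImplicit false

namespace Q24.TFC

open HJI.Fol Q24.ProfCompl

universe u

theorem countable_of_fg (G : Type) [Group G] (h : Group.FG G) : Countable G := by
  obtain ⟨S, hS1, hS2⟩ := Group.fg_iff.1 h
  have : Countable S := hS2.countable
  have hs : Function.Surjective (FreeGroup.lift (fun s : S => s.1)) := by
    rw [← MonoidHom.range_eq_top, FreeGroup.range_lift_eq_closure, Subtype.range_coe_subtype]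
    exact hS1
  exact hs.countable

theorem sc_hat (G : Type) [Group G] (h : Group.FG G) : SecondCountableTopology (Hat G) := by
  have hc := countable_of_fg G h
  have hex : ∀ I : Idx (fun _ : Subgroup G => True), ∃ S : Finset G, Subgroup.closure (S : Set G) = I.N := by
    intro I
    have : I.N.FiniteIndex := Subgroup.finiteIndex_of_finite_quotient
    have h1 : Group.FG I.N := Subgroup.fg_of_index_ne_zero I.N
    exact (Group.fg_iff_subgroup_fg I.N).1 h1
  choose S hS using hex
  have hcI : Countable (Idx (fun _ : Subgroup G => True)) := by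
    refine Function.Injective.countable (f := S) ?_
    intro I J hIJ
    have h1 : I.N = J.N := by rw [← hS I, ← hS J, hIJ]
    cases I; cases J
    simp only at h1
    subst h1
    rfl
  have : ∀ I : Idx (fun _ : Subgroup G => True), SecondCountableTopology (Quo I) := fun I =>
    inferInstance
  exact Topology.IsEmbedding.subtypeVal.secondCountableTopology

/-- a second countable profinite group embeds in a product of alternating groups -/
theorem exists_embedding (H : Type u) [Group H] [TopologicalSpace H] (hH : IsProfinite H)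
    (hsc : SecondCountableTopology H) :
    ∃ k : ℕ → ℕ, (∀ n, n + 5 ≤ k n) ∧ ∃ jj : ∀ n, H →* alternatingGroup (Fin (k n)),
      (∀ n, ∃ M : Subgroup H, IsOpen (M : Set H) ∧ M ≤ (jj n).ker) ∧
      (∀ h, (∀ n, jj n h = 1) → h = 1) := by
  have := hH.topGroup
  have := hH.compact
  have := hH.t2
  have := hH.td
  obtain ⟨U, hU⟩ := (nhds (1 : H)).exists_antitone_basis
  have hN : ∀ n, ∃ N : Subgroup H, N.Normal ∧ IsOpen (N : Set H) ∧ (N : Set H) ⊆ U n := by
    intro n
    obtain ⟨V, hVU, hVo, hV1⟩ := mem_nhds_iff.1 (hU.1.mem_of_mem (i := n) trivial)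
    obtain ⟨N, hN⟩ := ProfiniteGrp.exist_openNormalSubgroup_sub_open_nhds_of_one
      (G := H) (U := V) hVo hV1
    exact ⟨N.toSubgroup, N.isNormal', N.isOpen', hN.trans hVU⟩
  choose N hNn hNo hNU using hN
  have hfin : ∀ n, Finite (H ⧸ N n) := fun n => Subgroup.quotient_finite_of_isOpen (N n) (hNo n)
  have hk : ∀ n, ∃ k, n + 5 ≤ k ∧ ∃ f : H ⧸ N n →* alternatingGroup (Fin k),
      Function.Injective f := fun n => embed_alt (H ⧸ N n) (n + 5)
  choose k hk f hf using hk
  refine ⟨k, hk, fun n => (f n).comp (QuotientGroup.mk' (N n)), ?_, ?_⟩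
  · intro n
    refine ⟨N n, hNo n, ?_⟩
    intro x hx
    show f n (QuotientGroup.mk' (N n) x) = 1
    have : QuotientGroup.mk' (N n) x = 1 := (QuotientGroup.eq_one_iff x).2 hx
    rw [this, map_one]
  · intro h hh
    by_contra hne
    have h1 : ({h}ᶜ : Set H) ∈ nhds (1 : H) := isOpen_compl_singleton.mem_nhds (by
      intro e; exact hne e.symm)
    obtain ⟨n, hn⟩ := hU.1.mem_iff.1 h1
    have h2 : QuotientGroup.mk' (N n) h = 1 := by
      apply hf n
      rw [map_one]
      exact hh n
    have h3 : h ∈ N n := (QuotientGroup.eq_one_iff h).1 h2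
    exact hn.2 (hNU n h3) rfl

theorem main (H : Type u) [Group H] [TopologicalSpace H] (hH : IsProfinite H) :
    (∃ (E : Type) (_ : Group E) (D : Subgroup (Hat E)), Group.FG E ∧ Good E ∧
      IsClosed (D : Set (Hat E)) ∧ Nonempty (D ≃ₜ* H) ∧
      ∀ x : Hat E, (∀ k : E, (toHat E k)⁻¹ * x * toHat E k ∈ D) → x = 1) ↔
    SecondCountableTopology H := by
  constructor
  · rintro ⟨E, _, D, hfg, _, _, ⟨e⟩, _⟩
    have := sc_hat E hfg
    have : SecondCountableTopology D := Topology.IsEmbedding.subtypeVal.secondCountableTopology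
    exact e.toHomeomorph.symm.secondCountableTopology
  · intro hsc
    have := hH.topGroup
    have := hH.compact
    have := hH.t2
    obtain ⟨k, hk, jj, hj1, hj2⟩ := exists_embedding H hH hsc
    let _ : ∀ n, TopologicalSpace (alternatingGroup (Fin (k n))) := fun _ => ⊥
    have : ∀ n, DiscreteTopology (alternatingGroup (Fin (k n))) := fun _ => ⟨rfl⟩
    refine realize (fun n => alternatingGroup (Fin (k n)))
      (fun n => perfect (by have := hk n; omega)) ?_ H (MonoidHom.pi jj) ?_ ?_
    · intro P _ _
      refine ⟨Nat.card P, fun n hn f => hom_trivial (by have := hk n; omega) ?_ f⟩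
      have := hk n
      omega
    · refine continuous_pi fun n => ?_
      obtain ⟨M, hM, hMk⟩ := hj1 n
      show Continuous (jj n)
      refine continuous_of_continuousAt_one (jj n) ?_
      have h1 : (jj n) ⁻¹' {1} ∈ nhds (1 : H) :=
        Filter.mem_of_superset (hM.mem_nhds M.one_mem) (fun x hx => hMk hx)
      rw [ContinuousAt, map_one, nhds_discrete (alternatingGroup (Fin (k n))),
        Filter.tendsto_pure]
      exact h1
    · rw [injective_iff_map_eq_one]
      intro h hh
      exact hj2 h (fun n => congrFun hh n)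

end Q24.TFC
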